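import Pool.Agent.H46.PL5

namespace Pool.Agent.Results.MP_701b78_al.ThreeRev

open Pool.Agent.H46.PLR

theorem result :
    ∀ f ∈ PLplus, ∃ r₁ r₂ r₃ : ℝ ≃ₜ ℝ,
      Reversible r₁ ∧ Reversible r₂ ∧ Reversible r₃ ∧ f = r₁ * r₂ * r₃ :=
  main3

end Pool.Agent.Results.MP_701b78_al.ThreeRev
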